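import Mathlib

set_option autoImplicit false

namespace Pool.Agent.H.MP_23a294_lc.A

open Set Function MeasurableSpace MeasureTheory
open Cardinal hiding univ

def FL (G : Type) [Group G] : Prop := ∃ M : G → Set G, (∀ g, (M g).Finite) ∧
  ∀ x y, ∃ a ∈ M x, a ∈ M (x * y) ∧ x⁻¹ * a ∈ M y

lemma fl_cnt (G : Type) [Group G] [Countable G] : FL G := by
  obtain ⟨e, he⟩ := exists_injective_nat G
  refine ⟨fun g => insert 1 (e ⁻¹' Iic (e g)), fun g => ((finite_Iic _).preimage he.injOn).insert _,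
    fun x y => ?_⟩
  rcases le_total (e x) (e (x * y)) with h | h
  · exact ⟨x, .inr (le_refl (e x)), .inr h, .inl (by simp)⟩
  · exact ⟨x * y, .inr h, .inr (le_refl (e (x * y))), .inr (by simp)⟩

lemma clo {G : Type} [Group G] (s : Set G) [Nonempty s] : #(Subgroup.closure s) ≤ max #s ℵ₀ := by
  rw [FreeGroup.closure_eq_range, ← mk_freeGroup]
  exact mk_range_le

lemma fl (κ : Cardinal.{0}) : ∀ (G : Type) [Group G], #G = κ → FL G := by
  classical
  induction κ using WellFoundedLT.induction with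
  | _ κ ih =>
  intro G _ hG
  by_cases hc : κ ≤ ℵ₀
  · haveI := mk_le_aleph0_iff.1 (hG ▸ hc)
    exact fl_cnt G
  push Not at hc
  let W := κ.ord.ToType
  obtain ⟨e⟩ : Nonempty (W ≃ G) := Cardinal.eq.1 (by simp [W, hG])
  let H : W → Subgroup G := fun a => Subgroup.closure (e '' Iic a)
  have Hm : Monotone H := fun a b l => Subgroup.closure_mono (image_mono (Iic_subset_Iic.2 l))
  have Hs : ∀ a, #(H a) < κ := fun a => (@clo _ _ (e '' Iic a) ⟨⟨_, a, le_refl a, rfl⟩⟩).trans_lt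
    (max_lt (mk_image_le.trans_lt (by
      simpa [W] using mk_Iic_lt a (by simp [W]) (by simpa [W] using hc.le))) hc)
  choose N N1 N2 using fun a => ih _ (Hs a) (H a) rfl
  have ne : ∀ g, {a | g ∈ H a}.Nonempty := fun g =>
    ⟨e.symm g, Subgroup.subset_closure ⟨_, le_refl (e.symm g), by simp⟩⟩
  let lev : G → W := fun g => wellFounded_lt.min _ (ne g)
  have l1 : ∀ {g a}, lev g ≤ a ↔ g ∈ H a := fun {g a} =>
    ⟨fun l => Hm l (wellFounded_lt.min_mem _ (ne g)), fun h => wellFounded_lt.min_le (s := {a | g ∈ H a}) h⟩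
  have lm : ∀ {g h a}, lev g < a → lev h < a → lev (g * h) < a := fun {g h a} x y =>
    (l1.2 (mul_mem (l1.1 (le_max_left _ _)) (l1.1 (le_max_right _ _)))).trans_lt (max_lt x y)
  have li : ∀ g, lev g⁻¹ = lev g := fun g =>
    (l1.2 (inv_mem (l1.1 le_rfl))).antisymm (l1.2 (inv_mem_iff.1 (l1.1 le_rfl)))
  have : ∀ a, ∃ ρ : G → G, ∀ g g', lev (g⁻¹ * g') < a → ρ g = ρ g' ∧ lev (g⁻¹ * ρ g) < a := fun a => by
    refine ⟨fun g => Classical.epsilon fun r => lev (g⁻¹ * r) < a, fun g g' h => ⟨?_,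
      Classical.epsilon_spec (p := fun r => lev (g⁻¹ * r) < a) ⟨g', h⟩⟩⟩
    refine congrArg Classical.epsilon (funext fun r => ?_)
    refine propext ⟨fun k => ?_, fun k => ?_⟩
    · simpa [mul_assoc] using lm ((li _).trans_lt h) k
    · simpa [mul_assoc] using lm h k
  choose ρ hρ using this
  let M : G → Set G := (InvImage.wf lev wellFounded_lt).fix fun g M =>
    Subtype.val '' N (lev g) ⟨g, l1.1 le_rfl⟩ ∪
      (⋃ h : lev ((ρ (lev g) g)⁻¹ * g) < lev g, (ρ (lev g) g * ·) '' M _ h) ∪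
      ⋃ h : lev (g * ρ (lev g) g⁻¹) < lev g, M _ h
  have hM : ∀ g, M g = Subtype.val '' N (lev g) ⟨g, l1.1 le_rfl⟩ ∪
      (⋃ _ : lev ((ρ (lev g) g)⁻¹ * g) < lev g, (ρ (lev g) g * ·) '' M ((ρ (lev g) g)⁻¹ * g)) ∪
      ⋃ _ : lev (g * ρ (lev g) g⁻¹) < lev g, M (g * ρ (lev g) g⁻¹) := fun g =>
    WellFounded.fix_eq _ _ g
  have r0 : ∀ {g a} (h : g ∈ H a), lev g = a → ∀ u ∈ N a ⟨g, h⟩, u.1 ∈ M g := by
    rintro g _ h rfl u hu; rw [hM]; exact .inl (.inl ⟨u, hu, rfl⟩)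
  have rL : ∀ {g a r u}, lev g = a → ρ a g = r → lev (r⁻¹ * g) < a → u ∈ M (r⁻¹ * g) →
      r * u ∈ M g := by
    rintro g _ _ u rfl rfl h hu; rw [hM]; exact .inl (.inr (mem_iUnion.2 ⟨h, u, hu, rfl⟩))
  have rR : ∀ {g a r u}, lev g = a → ρ a g⁻¹ = r → lev (g * r) < a → u ∈ M (g * r) → u ∈ M g := by
    rintro g _ _ u rfl rfl h hu; rw [hM]; exact .inr (mem_iUnion.2 ⟨h, hu⟩)
  refine ⟨M, fun g => ?_, fun x y => ?_⟩
  · induction g using (InvImage.wf lev wellFounded_lt).induction with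
    | _ g i =>
    rw [hM]
    exact (((N1 _ _).image _).union (finite_iUnion fun h => (i _ h).image _)).union
      (finite_iUnion fun h => i _ h)
  have key : ∀ a x y, lev x ≤ a → lev y ≤ a →
      ∃ u ∈ M x, u ∈ M (x * y) ∧ x⁻¹ * u ∈ M y := fun a => by
    induction a using WellFoundedLT.induction with
    | _ a ih =>
    have ih' : ∀ x y, lev x < a → lev y < a → ∃ u ∈ M x, u ∈ M (x * y) ∧ x⁻¹ * u ∈ M y :=
      fun x y p q => ih _ (max_lt p q) x y (le_max_left _ _) (le_max_right _ _)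
    intro x y hx hy
    have hz : lev (x * y) ≤ a := l1.2 (mul_mem (l1.1 hx) (l1.1 hy))
    rcases hx.eq_or_lt with p | p <;> rcases hy.eq_or_lt with q | q
    · rcases hz.eq_or_lt with s | s
      · obtain ⟨u, u1, u2, u3⟩ := N2 a ⟨x, l1.1 hx⟩ ⟨y, l1.1 hy⟩
        exact ⟨u, r0 _ p u u1, r0 _ s u u2, r0 _ q _ u3⟩
      · obtain ⟨k1, k2⟩ := hρ a x⁻¹ y (by simpa using s)
        rw [inv_inv] at k2
        have k3 : lev ((ρ a x⁻¹)⁻¹ * y) < a := by
          simpa [mul_assoc] using lm ((li _).trans_lt k2) s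
        obtain ⟨u, u1, u2, u3⟩ := ih' _ _ k2 k3
        exact ⟨u, rR p rfl k2 u1, by simpa [mul_assoc] using u2,
          by simpa [mul_assoc] using rL q k1.symm k3 u3⟩
    · have s : lev (x * y) = a := hz.eq_of_not_lt fun s => p.not_lt (by
        simpa using lm s ((li _).trans_lt q))
      obtain ⟨k1, k2⟩ := hρ a x (x * y) (by simpa using q)
      have k3 : lev ((ρ a x)⁻¹ * x) < a := by simpa using (li _).trans_lt k2
      obtain ⟨u, u1, u2, u3⟩ := ih' _ _ k3 q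
      exact ⟨_, rL p rfl k3 u1, rL s k1.symm (mul_assoc _ x y ▸ lm k3 q) (mul_assoc _ x y ▸ u2),
        by simpa [mul_assoc] using u3⟩
    · have s : lev (x * y) = a := hz.eq_of_not_lt fun s => q.not_lt (by
        simpa using lm ((li _).trans_lt p) s)
      obtain ⟨k1, k2⟩ := hρ a y⁻¹ (x * y)⁻¹ (by simpa using (li _).trans_lt p)
      rw [inv_inv] at k2
      obtain ⟨u, u1, u2, u3⟩ := ih' _ _ p k2
      exact ⟨u, u1, rR s k1.symm ((mul_assoc x y _).symm ▸ lm p k2) ((mul_assoc x y _).symm ▸ u2),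
        rR q rfl k2 u3⟩
    · exact ih' x y p q
  exact key _ x y (le_max_left _ _) (le_max_right _ _)

/-- the classes of subsets of `E³` relative to a sequence of subsets of `E` -/
def cls {E : Type} (𝒜 : ℕ → Set E) : ℕ → Set (Set (E × E × E))
  | 0 => {Z | ∃ B₁ B₂ B₃ : Set E, MeasurableSet[generateFrom (range 𝒜)] B₁ ∧
      MeasurableSet[generateFrom (range 𝒜)] B₂ ∧ MeasurableSet[generateFrom (range 𝒜)] B₃ ∧
      (Z = B₁ ×ˢ B₂ ×ˢ B₃ ∨ Z = (B₁ ×ˢ B₂ ×ˢ B₃)ᶜ)}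
  | k + 1 => {Z | ∃ f : ℕ → Set (E × E × E), (∀ n, f n ∈ cls 𝒜 k) ∧
      (Z = ⋃ n, f n ∨ Z = (⋃ n, f n)ᶜ)}

lemma un {E ι : Type} [Countable ι] [Nonempty ι] {𝒜 : ℕ → Set E} {k : ℕ}
    (f : ι → Set (E × E × E)) (h : ∀ i, f i ∈ cls 𝒜 k) :
    (⋃ i, f i) ∈ cls 𝒜 (k + 1) ∧ (⋃ i, f i)ᶜ ∈ cls 𝒜 (k + 1) := by
  obtain ⟨e, he⟩ := exists_surjective_nat ι
  exact ⟨⟨f ∘ e, fun _ => h _, .inl (he.iUnion_comp f).symm⟩,
    ⟨f ∘ e, fun _ => h _, .inr (congrArg _ (he.iUnion_comp f).symm)⟩⟩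

def th {G : Type} [Group G] (l : G → List G) (i : ℕ × Bool) (g : G) : G :=
  cond i.2 g⁻¹ 1 * (l g).getD i.1 1

lemma lists (G : Type) [Group G] : ∃ l : G → List G, ∀ x y z, x * y = z ↔ ∃ i j k,
    th l (i, false) x = th l (k, false) z ∧ th l (i, true) x = th l (j, false) y ∧
      th l (j, true) y = th l (k, true) z := by
  obtain ⟨M, M1, M2⟩ := fl _ G rfl
  refine ⟨fun g => (M1 g).toFinset.toList, fun x y z => ⟨?_, ?_⟩⟩
  · rintro rfl
    have : ∀ g, ∀ a ∈ M g, ∃ i, (M1 g).toFinset.toList.getD i 1 = a := fun g a h => by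
      obtain ⟨i, hi, e⟩ := List.getElem_of_mem (Finset.mem_toList.2 ((M1 g).mem_toFinset.2 h))
      exact ⟨i, by rw [List.getD_eq_getElem _ _ hi, e]⟩
    obtain ⟨a, a1, a2, a3⟩ := M2 x y
    obtain ⟨i, hi⟩ := this _ _ a1
    obtain ⟨k, hk⟩ := this _ _ a2
    obtain ⟨j, hj⟩ := this _ _ a3
    refine ⟨i, j, k, ?_⟩
    simp only [th, cond_true, cond_false, hi, hj, hk]
    simp [mul_assoc]
  · rintro ⟨i, j, k, a, b, c⟩
    simp only [th, cond_true, cond_false, one_mul] at a b c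
    rw [← b, ← a, ← mul_assoc, mul_left_inj, ← mul_inv_rev, inv_inj] at c
    exact c

lemma cls2 {G : Type} [Group G] (l : G → List G) (hl : ∀ x y z, x * y = z ↔ ∃ i j k,
    th l (i, false) x = th l (k, false) z ∧ th l (i, true) x = th l (j, false) y ∧
      th l (j, true) y = th l (k, true) z) (N : G → ℕ → Bool) (hN : Injective N) :
    ∃ 𝒜 : ℕ → Set G, (∀ n, ∃ i k, 𝒜 n = {g | N (th l i g) k = true}) ∧
      {p : G × G × G | p.1 * p.2.1 = p.2.2} ∈ cls 𝒜 2 := by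
  obtain ⟨e, he⟩ := exists_surjective_nat ((ℕ × Bool) × ℕ)
  let 𝒜 : ℕ → Set G := fun n => {g | N (th l (e n).1 g) (e n).2 = true}
  refine ⟨𝒜, fun n => ⟨_, _, rfl⟩, ?_⟩
  let S : ℕ × Bool → ℕ → Bool → Set G := fun i k b => {g | N (th l i g) k = b}
  have m : ∀ i k b, MeasurableSet[generateFrom (range 𝒜)] (S i k b) := fun i k b => by
    obtain ⟨n, hn⟩ := he (i, k)
    have : MeasurableSet[generateFrom (range 𝒜)] (S i k true) :=
      measurableSet_generateFrom ⟨n, by simp [𝒜, S, hn]⟩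
    cases b
    · convert this.compl using 1; ext; simp [S]
    · exact this
  let f : ℕ × ℕ × ℕ → Fin 3 × ℕ × Bool → Set (G × G × G) := fun w v =>
    ![S (w.1, false) v.2.1 v.2.2 ×ˢ univ ×ˢ S (w.2.2, false) v.2.1 (!v.2.2),
      S (w.1, true) v.2.1 v.2.2 ×ˢ S (w.2.1, false) v.2.1 (!v.2.2) ×ˢ univ,
      univ ×ˢ S (w.2.1, true) v.2.1 v.2.2 ×ˢ S (w.2.2, true) v.2.1 (!v.2.2)] v.1
  have : {p : G × G × G | p.1 * p.2.1 = p.2.2} = ⋃ w, (⋃ v, f w v)ᶜ := by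
    ext ⟨x, y, z⟩
    simp only [mem_setOf, hl, mem_iUnion, mem_compl_iff, not_exists, Prod.exists, Prod.forall,
      Fin.forall_fin_succ, f, ← hN.eq_iff, funext_iff]
    refine exists₃_congr fun i j k => ?_
    simp [S, eq_comm]
  rw [this]
  refine (un _ fun w => (un _ fun v => ?_).2).1
  obtain ⟨t, n, b⟩ := v
  fin_cases t
  exacts [⟨_, _, _, m _ _ _, .univ, m _ _ _, .inl rfl⟩, ⟨_, _, _, m _ _ _, m _ _ _, .univ, .inl rfl⟩,
    ⟨_, _, _, .univ, m _ _ _, m _ _ _, .inl rfl⟩]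

end Pool.Agent.H.MP_23a294_lc.A
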